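import Pool.Agent.N614.QG.BC
import Pool.Agent.N728.QG.Def2

/-!
# Project QH, task BC2: stages B and C without `T ≤ B`

The proof of `Pool.Agent.N614.QG.t_BC` (helper614), with `T ≤ T ^ e ≤ K B` in place of `T ≤ B`.
-/

set_option autoImplicit false

namespace Pool.Agent.N8.QH

open Finset MeasureTheory
open Pool.Agent.N134.QL (ediv_eq cls_bound st ev tele Ioc_zero sub_filter I1 mm Bd)
open Pool.Agent.N728.QL (CellConst)
open Pool.Agent.N728.QG (U0b U1b Rge Adm5 SE H4)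
open Pool.Agent.N614.QG

theorem t_BC2 (hSM : Pool.Agent.N728.QG.S_SM) (hB2 : Pool.Agent.N728.QG.S_B2) :
    ∀ G : Polynomial ℤ, 1 ≤ G.natDegree → Pool.Agent.N728.QG.S_BC2 G := by
  classical
  intro G he C0 κ ε η k K C2 q hC0 hκ hε hη hK hq
  by_cases hK4 : 4 ≤ K
  swap
  · refine ⟨1, one_pos, 3 * (G.eval 1).natAbs + 1, fun B hB W E _ _ _ T H F hT1 _ hR => ?_⟩
    exfalso
    have hT : 1 ≤ T := by
      rcases Nat.eq_zero_or_pos T with rfl | h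
      · exfalso
        rw [Nat.cast_zero, zero_pow (by omega), zero_mul] at hT1
        have h1 : (1 : ℝ) ≤ B := by
          have : 1 ≤ B := by omega
          exact_mod_cast this
        linarith
      · exact h
    have := rge_K hT (by omega) hR
    omega
  obtain ⟨e, hed⟩ : ∃ e : ℕ, e = G.natDegree := ⟨_, rfl⟩
  obtain ⟨CS, hCS1, hSM⟩ := hSM K hK4
  obtain ⟨CG, hCG1, hCG⟩ := lipG G
  rw [← hed] at hCG he
  -- the constants
  have hKr : (1 : ℝ) ≤ K := by exact_mod_cast hK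
  obtain ⟨δ, hδ⟩ : ∃ δ : ℝ, δ = min (1 / 2) (ε / (24 * C0 * (K + 1))) := ⟨_, rfl⟩
  have hδ0 : 0 < δ := by rw [hδ]; exact lt_min (by norm_num) (by positivity)
  have hδ1 : δ ≤ 1 / 2 := by rw [hδ]; exact min_le_left _ _
  have hδ2 : δ ≤ ε / (24 * C0 * (K + 1)) := by rw [hδ]; exact min_le_right _ _
  have hCG0 : 0 < CG := by linarith
  obtain ⟨τ, hτ⟩ : ∃ τ : ℝ, τ = min (1 / 2) (δ * η / (4 * CG)) := ⟨_, rfl⟩
  have hτ0 : 0 < τ := by rw [hτ]; exact lt_min (by norm_num) (by positivity)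
  have hτ1 : τ ≤ 1 / 2 := by rw [hτ]; exact min_le_left _ _
  have hτ2 : CG * τ ≤ δ * η / 4 := by
    have : τ ≤ δ * η / (4 * CG) := by rw [hτ]; exact min_le_right _ _
    rw [le_div_iff₀ (by positivity)] at this
    linarith
  obtain ⟨J0, hJ0⟩ : ∃ J0 : ℝ, J0 = 2 / τ + 1 := ⟨_, rfl⟩
  have hJ00 : 0 < J0 := by rw [hJ0]; positivity
  have hqr : (1 : ℝ) ≤ q := by exact_mod_cast hq
  have hq0 : (0 : ℝ) < q := by linarith
  obtain ⟨ε1, hε1⟩ : ∃ ε1 : ℝ, ε1 = ε / (12 * J0 * (q : ℝ) ^ 2) := ⟨_, rfl⟩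
  have hε10 : 0 < ε1 := by rw [hε1]; positivity
  obtain ⟨BB2, hB2⟩ := hB2 C0 ε1 k (e + 1) K (C2 + 2) q hC0 hε10 (by omega) hK hq
  obtain ⟨M, hM1, hM2, hM3, hM4, hM5, hM6, hM7, hM8, hM9⟩ : ∃ M : ℝ, 100 ≤ M ∧
      2 / τ ≤ M ∧ (2 / τ) ^ (e + 1) ≤ M ∧ CS ^ 2 ≤ M ∧ 2 * CS / (δ * η) ≤ M ∧
      4 / (δ * η) ≤ M ∧ 100 * (((G.eval 0).natAbs : ℝ) + 1) ≤ M ∧
      100 * (((G.eval 1).natAbs : ℝ) + 1) ≤ M ∧ 2 * (K : ℝ) + 100 ≤ M :=
    ((Filter.eventually_ge_atTop _).and ((Filter.eventually_ge_atTop _).and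
      ((Filter.eventually_ge_atTop _).and ((Filter.eventually_ge_atTop _).and
      ((Filter.eventually_ge_atTop _).and ((Filter.eventually_ge_atTop _).and
      ((Filter.eventually_ge_atTop _).and ((Filter.eventually_ge_atTop _).and
      (Filter.eventually_ge_atTop _))))))))).exists
  have hM9' := hM9
  replace hM9 : (K : ℝ) + 100 ≤ M := by linarith
  obtain ⟨B0, hB0⟩ := ev (M ^ (e + 1)) (C2 * (e + 1) + 1)
  refine ⟨ε1, hε10, max BB2 B0, fun B hB W E hEW hU0b hU1b T H F hT1 hTK hR hH4 hqH hH1 hHB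
    hA hF => ?_⟩
  have hBB2 : BB2 ≤ B := le_trans (le_max_left _ _) hB
  obtain ⟨hlgM, hRlgM, hB1⟩ := hB0 B (le_trans (le_max_right _ _) hB)
  rw [← hed] at hU0b hU1b hT1 hTK hH1
  have hB2 := hB2 B hBB2 W E hEW hU0b hU1b
  obtain ⟨lg, hlgd⟩ : ∃ lg : ℝ, lg = Real.log B := ⟨_, rfl⟩
  obtain ⟨R, hRd⟩ : ∃ R : ℝ, R = (B : ℝ) ^ (1 / 4 : ℝ) := ⟨_, rfl⟩
  rw [← hlgd] at hlgM hRlgM hT1
  rw [← hRd] at hRlgM
  have hM0 : (0 : ℝ) < M := by linarith
  have hMe : M ≤ M ^ (e + 1) := le_self_pow₀ (by linarith) (by omega)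
  have hlg : M ≤ lg := hMe.trans hlgM
  have hlg1 : 1 ≤ lg := by linarith
  have hlg0 : 0 < lg := by linarith
  have hBr : (1 : ℝ) ≤ B := by exact_mod_cast hB1
  have hRB : (B : ℝ) = R ^ 4 := by
    rw [hRd, ← Real.rpow_natCast, ← Real.rpow_mul (by linarith)]
    norm_num
  have hlp : 1 ≤ lg ^ C2 := one_le_pow₀ hlg1
  have hlpe : lg ≤ lg ^ (C2 * (e + 1) + 1) := le_self_pow₀ hlg1 (by omega)
  have hR1 : M * lg ≤ R := by
    refine le_trans ?_ hRlgM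
    gcongr
  have hR2 : M * lg ^ C2 ≤ R := by
    refine le_trans ?_ hRlgM
    have : lg ^ C2 ≤ lg ^ (C2 * (e + 1) + 1) := pow_le_pow_right₀ hlg1 (by nlinarith)
    gcongr
  have hRM : M ≤ R := (le_mul_of_one_le_right hM0.le hlg1).trans hR1
  have hR0 : 1 ≤ R := by linarith
  have hR4 : R ≤ R ^ 4 := le_self_pow₀ hR0 (by norm_num)
  have hMB : M ≤ B := by rw [hRB]; linarith
  -- T is large
  have hT00 : T ≠ 0 := by
    rintro rfl
    rw [Nat.cast_zero, zero_pow (by omega), zero_mul] at hT1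
    linarith
  have hT1' : 1 ≤ T := Nat.one_le_iff_ne_zero.2 hT00
  have hTr1 : (1 : ℝ) ≤ T := by exact_mod_cast hT1'
  have hT0 : (0 : ℝ) < T := by linarith
  have hTlg : M * lg ^ C2 ≤ T := by
    have h1 : (M * lg ^ C2) ^ e * lg ^ C2 ≤ (T : ℝ) ^ e * lg ^ C2 := by
      refine le_trans ?_ hT1
      calc (M * lg ^ C2) ^ e * lg ^ C2 = M ^ e * lg ^ (C2 * (e + 1)) := by
            rw [mul_pow, ← pow_mul, mul_assoc, ← pow_add]
            ring_nf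
        _ ≤ M ^ (e + 1) * lg ^ (C2 * (e + 1) + 1) := by
            have h2 : M ^ e ≤ M ^ (e + 1) := pow_le_pow_right₀ (by linarith) (by omega)
            have h3 : lg ^ (C2 * (e + 1)) ≤ lg ^ (C2 * (e + 1) + 1) :=
              pow_le_pow_right₀ hlg1 (by omega)
            gcongr
        _ ≤ R := hRlgM
        _ ≤ B := by rw [hRB]; exact hR4
    have h2 : (M * lg ^ C2) ^ e ≤ (T : ℝ) ^ e := le_of_mul_le_mul_right h1 (by positivity)
    exact le_of_pow_le_pow_left₀ (by omega) hT0.le h2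
  have hTM : M ≤ T := (le_mul_of_one_le_right hM0.le hlp).trans hTlg
  have hTKB : T ≤ K * B := (Nat.le_self_pow (by omega) T).trans hTK
  have hTKBr : (T : ℝ) ≤ K * B := by exact_mod_cast hTKB
  obtain ⟨P, hP⟩ : ∃ P : ℝ, P = (T : ℝ) ^ e := ⟨_, rfl⟩
  rw [← hP] at hT1 hH1
  have hPM : M * R ^ 3 ≤ P := by
    have h1 : M * R ^ 4 ≤ P * R := by
      calc M * R ^ 4 = M * B := by rw [hRB]
        _ ≤ M * (P * lg ^ C2) := by gcongr
        _ = P * (M * lg ^ C2) := by ring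
        _ ≤ P * R := by
          have : 0 ≤ P := by rw [hP]; positivity
          gcongr
    have h2 : (M * R ^ 3) * R ≤ P * R := by
      calc (M * R ^ 3) * R = M * R ^ 4 := by ring
        _ ≤ P * R := h1
    exact le_of_mul_le_mul_right h2 (by linarith)
  have hP0 : 0 < P := lt_of_lt_of_le (by positivity) hPM
  have hHBr : 10 * (H : ℝ) ≤ B := by exact_mod_cast hHB
  have hH0 : (0 : ℝ) < H := lt_of_lt_of_le (by positivity) hH1
  have hH1' : 1 ≤ H := by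
    have : 0 < H := by exact_mod_cast hH0
    omega
  have hR3 : 1 ≤ R ^ 3 := one_le_pow₀ hR0
  have hδH2 : 4 * R ^ 3 ≤ δ * H := by
    rw [div_le_iff₀ (by positivity)] at hM6
    calc 4 * R ^ 3 ≤ M * (δ * η) * R ^ 3 := by gcongr
      _ = δ * (η * (M * R ^ 3)) := by ring
      _ ≤ δ * (η * P) := by gcongr
      _ ≤ δ * H := by gcongr
  -- the blocks
  obtain ⟨h, hh⟩ : ∃ h : ℕ, h = ⌊τ * T⌋₊ := ⟨_, rfl⟩
  have hh1 : (h : ℝ) ≤ τ * T := by rw [hh]; exact Nat.floor_le (by positivity)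
  have hh2 : τ * T < h + 1 := by rw [hh]; exact Nat.lt_floor_add_one _
  have hτT : 2 ≤ τ * T := by
    rw [div_le_iff₀ hτ0] at hM2
    calc (2 : ℝ) ≤ M * τ := hM2
      _ ≤ T * τ := by gcongr
      _ = τ * T := mul_comm _ _
  have hh3 : τ * T ≤ 2 * h := by linarith
  have hhTr : (h : ℝ) ≤ T := by
    have : τ * T ≤ 1 * T := by gcongr; linarith
    linarith
  have hhT : h ≤ T := by exact_mod_cast hhTr
  have hh0 : 0 < h := by
    have : (0 : ℝ) < h := by linarith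
    exact_mod_cast this
  have hhe : B ≤ h ^ (e + 1) := by
    have h1 : (B : ℝ) ≤ (h : ℝ) ^ (e + 1) := by
      have h2 : (τ / 2 * T) ^ (e + 1) ≤ (h : ℝ) ^ (e + 1) := by
        refine pow_le_pow_left₀ (by positivity) ?_ _
        linarith
      refine le_trans ?_ h2
      have h3 : (τ / 2) ^ (e + 1) * M ≥ 1 := by
        have h4 : (τ / 2) ^ (e + 1) * (2 / τ) ^ (e + 1) = 1 := by
          rw [← mul_pow, show τ / 2 * (2 / τ) = 1 by field_simp, one_pow]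
        have h5 : (τ / 2) ^ (e + 1) * (2 / τ) ^ (e + 1) ≤ (τ / 2) ^ (e + 1) * M := by gcongr
        linarith
      calc (B : ℝ) ≤ P * lg ^ C2 := hT1
        _ ≤ P * (((τ / 2) ^ (e + 1) * M) * lg ^ C2) := by
            refine mul_le_mul_of_nonneg_left ?_ hP0.le
            exact le_mul_of_one_le_left (by positivity) h3
        _ = (τ / 2) ^ (e + 1) * P * (M * lg ^ C2) := by ring
        _ ≤ (τ / 2) ^ (e + 1) * P * T := by gcongr
        _ = (τ / 2 * T) ^ (e + 1) := by rw [hP, mul_pow, pow_succ (T : ℝ) e]; ring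
    exact_mod_cast h1
  have hδH : ∀ U U' : ℕ, U' ≤ U + h → U' ≤ T → ∀ u ∈ Ioc U U',
      |((G.eval (u : ℤ) : ℤ) : ℝ) - ((G.eval (U : ℤ) : ℤ) : ℝ)| < δ * H := by
    intro U U' hUh hUT u hu
    rw [mem_Ioc] at hu
    have h1 := hCG T u U hT1' (hu.2.trans hUT) (by omega)
    have h2 : |(u : ℝ) - U| ≤ h := by
      have h3 : (U : ℝ) ≤ u := by exact_mod_cast hu.1.le
      have h4 : (u : ℝ) ≤ U + h := by exact_mod_cast hu.2.trans hUh
      rw [abs_of_nonneg (by linarith)]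
      linarith
    have h3 : (T : ℝ) ^ (e - 1) * T = P := by
      rw [hP, ← pow_succ]
      congr 1
      omega
    calc _ ≤ CG * (T : ℝ) ^ (e - 1) * |(u : ℝ) - U| := h1
      _ ≤ CG * (T : ℝ) ^ (e - 1) * (τ * T) := by
          gcongr
          exact h2.trans hh1
      _ = CG * τ * P := by rw [← h3]; ring
      _ ≤ δ * η / 4 * P := by gcongr
      _ = δ * (η * P) / 4 := by ring
      _ ≤ δ * H / 4 := by gcongr
      _ < δ * H := by
          have : 0 < δ * H := by positivity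
          linarith
  -- the smoothing
  obtain ⟨ℓ, hℓ⟩ : ∃ ℓ : ℝ, ℓ = Real.sqrt lg := ⟨_, rfl⟩
  have hℓ2 : ℓ ^ 2 = lg := by rw [hℓ]; exact Real.sq_sqrt hlg0.le
  have hℓ10 : 10 ≤ ℓ := by
    rw [hℓ]
    apply Real.le_sqrt_of_sq_le
    linarith
  have hCSℓ : CS * ℓ ≤ lg := by
    have h1 : CS ≤ ℓ := by
      rw [hℓ]
      apply Real.le_sqrt_of_sq_le
      linarith
    calc CS * ℓ ≤ ℓ * ℓ := by gcongr
      _ = lg := by rw [← hℓ2]; ring
  obtain ⟨L, hL⟩ : ∃ L : ℝ, L = CS * (B / (δ * H) + ℓ) := ⟨_, rfl⟩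
  have hL1 : 1 ≤ L := by
    rw [hL]
    have h1 : 0 ≤ B / (δ * H) := by positivity
    exact one_le_mul_of_one_le_of_one_le hCS1 (by linarith)
  have hL2 : L ≤ lg ^ (C2 + 2) := by
    have h1 : (B : ℝ) / (δ * H) ≤ lg ^ C2 / (δ * η) := by
      rw [div_le_div_iff₀ (by positivity) (by positivity)]
      calc (B : ℝ) * (δ * η) ≤ (P * lg ^ C2) * (δ * η) := by gcongr
        _ = lg ^ C2 * (δ * (η * P)) := by ring
        _ ≤ lg ^ C2 * (δ * H) := by gcongr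
    have h2 : CS * (lg ^ C2 / (δ * η)) ≤ lg ^ C2 * (lg / 2) := by
      have h3 : CS / (δ * η) ≤ lg / 2 := by
        have : 2 * CS / (δ * η) = 2 * (CS / (δ * η)) := by ring
        linarith
      calc CS * (lg ^ C2 / (δ * η)) = lg ^ C2 * (CS / (δ * η)) := by ring
        _ ≤ lg ^ C2 * (lg / 2) := by gcongr
    rw [hL, pow_add]
    calc CS * (B / (δ * H) + ℓ) = CS * (B / (δ * H)) + CS * ℓ := by ring
      _ ≤ CS * (lg ^ C2 / (δ * η)) + lg := by gcongr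
      _ ≤ lg ^ C2 * (lg / 2) + lg ^ C2 * lg :=
        add_le_add h2 (le_mul_of_one_le_left hlg0.le hlp)
      _ = lg ^ C2 * (3 / 2 * lg) := by ring
      _ ≤ lg ^ C2 * lg ^ 2 := by
        have : 3 / 2 * lg ≤ lg ^ 2 := by
          rw [sq]
          exact mul_le_mul_of_nonneg_right (by linarith) hlg0.le
        gcongr
  let Pg : (ℝ → ℝ) → Prop := fun g => (∀ s, |g s| ≤ 2) ∧ (∀ s s', |g s - g s'| ≤ L * |s - s'|) ∧
    (∀ s, ¬ (Real.log ((B : ℝ) / 4) ≤ s ∧ s ≤ Real.log ((K : ℝ) * (B : ℝ))) → g s = 0) ∧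
    (∀ s1 s2 : ℝ, s1 ≤ s2 → |∫ s in s1..s2, g s| ≤ 1 / ℓ)
  let PG : (ℝ → ℝ) → Prop := fun G => (∀ v, |G v| ≤ 1) ∧
    (∀ v v', |G v - G v'| ≤ CS * ℓ * |v - v'| / B)
  have hS : ∀ σ : ℝ, ∀ G0 : ℝ → ℝ, (∀ v, |G0 v| ≤ 1) →
      (∀ v v', ⌊(v - σ) / (H : ℝ)⌋ = ⌊(v' - σ) / (H : ℝ)⌋ → G0 v = G0 v') →
      (∀ v, ¬ ((B : ℝ) / 3 ≤ v ∧ v ≤ K * B / 2) → G0 v = 0) →
      ∃ g G : ℝ → ℝ, Pg g ∧ PG G ∧ (∀ v, 0 < v → |G v + g (Real.log v)| ≤ 1) ∧
        (∀ v : ℝ, 0 < v → (∀ k : ℤ, δ * H ≤ |v - σ - k * H|) →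
          G0 v = G v + g (Real.log v)) := by
    intro σ G0 h1 h2 h3
    obtain ⟨g, G, g1, g2, g3, g4, g5, g6, g7, g8⟩ := hSM (B : ℝ) H δ ℓ σ G0 hBr hH0
      hHBr hδ0 hδ1 hℓ10 h1 h2 h3
    exact ⟨g, G, ⟨g1, by rw [hL]; exact g2, g3, g4⟩, ⟨g5, g6⟩, g7, g8⟩
  have hG : ∀ U U' : ℕ, U ≤ U' → U' ≤ T → ∀ G, PG G → ∀ u0 v0 : ℕ,
      |∑ u ∈ (Ioc U U').filter (fun u => u ≡ u0 [MOD q]),
      ∑ v ∈ (Icc 1 (K * B)).filter (fun v => v ≡ v0 [MOD q]), G v * E (u * v)| ≤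
      κ / (q : ℝ) ^ 2 * (B * ((U' : ℝ) - U)) + ε1 * ((B : ℝ) * T) := by
    intro U U' hUU hUT G hPG u0 v0
    refine hH4 U U' u0 v0 (fun v => G v) hUU hUT (fun v => hPG.1 v) (fun v => ?_)
    have h1 := hPG.2 ((v + 1 : ℕ) : ℝ) (v : ℝ)
    refine h1.trans ?_
    rw [← hlgd]
    have h2 : |(((v + 1 : ℕ) : ℝ) - (v : ℝ))| = 1 := by
      push_cast
      rw [add_sub_cancel_left, abs_one]
    rw [h2, mul_one]
    gcongr
  have hTBe : ∀ T' : ℕ, T' ≤ T → T' ≤ B ^ (e + 1) := fun T' hT' => by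
    have hKB1 : K ≤ B := by
      have : (K : ℝ) ≤ B := by linarith
      exact_mod_cast this
    calc T' ≤ K * B := hT'.trans hTKB
      _ ≤ B * B := Nat.mul_le_mul_right _ hKB1
      _ = B ^ 2 := by ring
      _ ≤ B ^ (e + 1) := Nat.pow_le_pow_right hB1 (by omega)
  have hg1 : ∀ T' : ℕ, (T' = 0 ∨ h ≤ T') → T' ≤ T → ∀ g, Pg g → ∀ u0 v0 : ℕ,
      |∑ u ∈ (Icc 1 T').filter (fun u => u ≡ u0 [MOD q]),
      ∑ v ∈ (Icc 1 (K * B)).filter (fun v => v ≡ v0 [MOD q]),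
        g (Real.log v) * E (u * v)| ≤ ε1 * ((B : ℝ) * T) := by
    intro T' hT' hT'T g hPg u0 v0
    rcases hT' with hT' | hT'
    · subst hT'
      simp only [Icc_eq_empty_of_lt (show (0 : ℕ) < 1 by norm_num), filter_empty, sum_empty,
        abs_zero]
      positivity
    · obtain ⟨p1, p2, p3, p4⟩ := hPg
      refine (hB2 T' u0 v0 g L (hhe.trans (Nat.pow_le_pow_left hT' _)) (hTBe T' hT'T) hL1
        (by rw [← hlgd]; exact hL2) p1 p2 p3 (by rw [← hlgd, ← hℓ]; exact p4)).trans ?_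
      have : (T' : ℝ) ≤ T := by exact_mod_cast hT'T
      gcongr
  have hg : ∀ U U' : ℕ, U ≤ U' → U' ≤ T → (U = 0 ∨ h ≤ U) → (U' = 0 ∨ h ≤ U') → ∀ g, Pg g →
      ∀ u0 v0 : ℕ, |∑ u ∈ (Ioc U U').filter (fun u => u ≡ u0 [MOD q]),
      ∑ v ∈ (Icc 1 (K * B)).filter (fun v => v ≡ v0 [MOD q]),
        g (Real.log v) * E (u * v)| ≤ 2 * (ε1 * ((B : ℝ) * T)) := by
    intro U U' hUU hUT hU1 hU2 g hPg u0 v0
    rw [sub_filter _ _ hUU]
    have h1 := hg1 U' hU2 hUT g hPg u0 v0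
    have h2 := hg1 U hU1 (hUU.trans hUT) g hPg u0 v0
    exact (abs_sub _ _).trans (by linarith)
  -- the bad points
  have hmm2 : 2 * δ * H ≤ mm H δ := by
    unfold mm
    push_cast
    linarith [Nat.le_ceil (2 * δ * (H : ℝ))]
  have hmm3 : (mm H δ : ℝ) ≤ 3 * (δ * H) := by
    unfold mm
    push_cast
    have := Nat.ceil_lt_add_one (show 0 ≤ 2 * δ * (H : ℝ) by positivity)
    linarith
  have hmm4 : B ≤ (mm H δ) ^ (8 * (e + 1)) := by
    have h1 : R ≤ (mm H δ : ℝ) := by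
      have : R ≤ R ^ 3 := le_self_pow₀ hR0 (by norm_num)
      linarith
    have h2 : (B : ℝ) ≤ (mm H δ : ℝ) ^ (8 * (e + 1)) := by
      rw [hRB]
      calc R ^ 4 ≤ R ^ (8 * (e + 1)) := pow_le_pow_right₀ hR0 (by omega)
        _ ≤ _ := pow_le_pow_left₀ (by linarith) h1 _
    exact_mod_cast h2
  have hh8 : B ≤ h ^ (8 * (e + 1)) := hhe.trans (Nat.pow_le_pow_right hh0 (by omega))
  have hB28 : B ^ 2 ≤ B ^ (8 * (e + 1)) := Nat.pow_le_pow_right hB1 (by omega)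
  have hBB : M * (B : ℝ) ≤ (B : ℝ) ^ 2 := by
    rw [sq]
    gcongr
  have hU0' : ∀ U : ℕ, U ≤ T → ∀ σ : ℝ, ∀ k ∈ Kk H (K * B) σ,
      ∑ u ∈ Ioc U (U + h), ∑ v ∈ Ioc (I1 H δ σ k) (I1 H δ σ k + mm H δ),
        W (u * v) ≤ C0 * (h * mm H δ) := by
    intro U hUT σ k hk
    have h1 := hU0b 1 1 U (U + h) (I1 H δ σ k) (I1 H δ σ k + mm H δ)
      le_rfl le_rfl (by rw [one_pow]; exact hB1) (by rw [one_pow]; exact hB1) (Nat.le_add_right _ _)
      (by rw [Nat.add_sub_cancel_left]; exact hh8) ?_ (Nat.le_add_right _ _)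
      (by rw [Nat.add_sub_cancel_left]; exact hmm4) ?_
    · simp only [one_dvd, filter_true, Nat.totient_one, Nat.cast_one, mul_one, div_one] at h1
      refine h1.trans (le_of_eq ?_)
      push_cast
      ring
    · refine le_trans ?_ hB28
      have h2 : ((U + h : ℕ) : ℝ) ≤ (B : ℝ) ^ 2 := by
        push_cast
        have h3 : (U : ℝ) ≤ T := by exact_mod_cast hUT
        have h4 := hTKBr
        have h5 : (2 * (K : ℝ) + 100) * (B : ℝ) ≤ M * B := by gcongr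
        linarith
      exact_mod_cast h2
    · refine le_trans ?_ hB28
      have h2 := I1_le (N := K * B) (σ := σ) hH1' hδ0.le hk
      have h3 : ((I1 H δ σ k + mm H δ : ℕ) : ℝ) ≤ (B : ℝ) ^ 2 := by
        push_cast at h2 ⊢
        have h4 : (H : ℝ) ≤ B := by linarith
        have h5 : δ * H ≤ 1 / 2 * H := by gcongr
        have h6 : ((K : ℝ) + 100) * B ≤ M * B := by gcongr
        linarith
      exact_mod_cast h3
  -- the support
  have hK15 : 15 ≤ K := by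
    refine rge_K hT1' ?_ hR
    have h1 : 3 * ((G.eval 1).natAbs : ℝ) < B := by
      have : (0 : ℝ) ≤ ((G.eval 1).natAbs : ℝ) := Nat.cast_nonneg _
      linarith
    exact_mod_cast h1
  have hK15r : (15 : ℝ) ≤ K := by exact_mod_cast hK15
  have hKB : 15 * (B : ℝ) ≤ K * B := by gcongr
  have hsup : ∀ U : ℕ, U ≤ T → (B : ℝ) / 3 ≤ ((G.eval (U : ℤ) : ℤ) : ℝ) + B - H ∧
      ((G.eval (U : ℤ) : ℤ) : ℝ) + 5 * B + H ≤ K * B / 2 := by
    intro U hUT
    rcases Nat.eq_zero_or_pos U with rfl | hU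
    · have h1 : |((G.eval ((0 : ℕ) : ℤ) : ℤ) : ℝ)| ≤ B / 100 := by
        have h2 : ((G.eval ((0 : ℕ) : ℤ)).natAbs : ℝ) = |((G.eval ((0 : ℕ) : ℤ) : ℤ) : ℝ)| := by
          rw [Nat.cast_natAbs, Int.cast_abs]
        rw [← h2, Nat.cast_zero]
        linarith
      obtain ⟨h2, h3⟩ := abs_le.1 h1
      constructor <;> linarith
    · obtain ⟨h1, h2⟩ := hR U hU hUT
      have h3 : -(B : ℝ) ≤ 2 * ((G.eval (U : ℤ) : ℤ) : ℝ) := by exact_mod_cast h1
      have h4 : 3 * (((G.eval (U : ℤ) : ℤ) : ℝ) + 5 * B) ≤ (K : ℝ) * B := by exact_mod_cast h2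
      constructor <;> linarith
  -- the blocks
  obtain ⟨J, hJ⟩ : ∃ J : ℕ, J = T / h + 1 := ⟨_, rfl⟩
  let U : ℕ → ℕ := fun i => min (i * h) T
  have hUm : Monotone U := fun i j hij => min_le_min_right _ (Nat.mul_le_mul_right h hij)
  have hU0z : U 0 = 0 := by show min (0 * h) T = 0; simp
  have hUJ : U J = T := by
    show min (J * h) T = T
    refine min_eq_right ?_
    rw [hJ, add_mul, one_mul]
    have := Nat.lt_div_mul_add hh0 (a := T)
    omega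
  have hUT : ∀ i, U i ≤ T := fun i => min_le_right _ _
  have hUs : ∀ i, U (i + 1) ≤ U i + h := by
    intro i
    show min ((i + 1) * h) T ≤ min (i * h) T + h
    rw [add_mul, one_mul]
    omega
  have hUh : ∀ i, U i = 0 ∨ h ≤ U i := by
    intro i
    rcases Nat.eq_zero_or_pos i with rfl | hi
    · exact Or.inl hU0z
    · right
      show h ≤ min (i * h) T
      exact le_min (Nat.le_mul_of_pos_left h hi) hhT
  have hblock : ∀ i ∈ range J, |∑ u ∈ Ioc (U i) (U (i + 1)), ∑ v ∈ Icc 1 (K * B),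
      F ((v : ℤ) - G.eval (u : ℤ)) * E (u * v)| ≤
      κ * B * ((U (i + 1) : ℝ) - U i) + (3 * (q : ℝ) ^ 2 * ε1 * ((B : ℝ) * T) +
        h * (2 * C0 * (K * B / H + 4) * mm H δ)) := by
    intro i _
    obtain ⟨hs1, hs2⟩ := hsup (U i) (hUT i)
    have h1 := block (φ := fun u => G.eval (u : ℤ)) (E := E) (B := B) (K := K) hq hH1' hqH hF hA
      (modG G q) (hδH (U i) (U (i + 1)) (hUs i) (hUT _)) hs1 hs2 Pg PG
      (hS ((G.eval (U i : ℤ) : ℤ) : ℝ))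
      (hG (U i) (U (i + 1)) (hUm (Nat.le_succ i)) (hUT _))
      (hg (U i) (U (i + 1)) (hUm (Nat.le_succ i)) (hUT _) (hUh i) (hUh (i + 1)))
    have h2 := bad_block (N := K * B) (H := H) (E := E) (W := W)
      (σ := ((G.eval (U i : ℤ) : ℤ) : ℝ)) hEW hH1' hδ1 (hUs i)
      (hU0' (U i) (hUT i) _) hC0.le
    refine (h1.trans (add_le_add_right h2 _)).trans (le_of_eq ?_)
    push_cast
    field_simp
    ring
  have hSF : SE G K E B T F = ∑ i ∈ range J, ∑ u ∈ Ioc (U i) (U (i + 1)), ∑ v ∈ Icc 1 (K * B),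
      F ((v : ℤ) - G.eval (u : ℤ)) * E (u * v) := by
    rw [tele _ U hUm J, hU0z, hUJ, Ioc_zero]
    rfl
  rw [hSF]
  have hsum : ∑ i ∈ range J, ((U (i + 1) : ℝ) - U i) = T := by
    rw [Finset.sum_range_sub (fun i => (U i : ℝ)) J, hUJ, hU0z]
    simp
  have hJh : (J : ℝ) * h ≤ 2 * T := by
    have h1 : J * h ≤ 2 * T := by
      rw [hJ, add_mul, one_mul]
      have := Nat.div_mul_le_self T h
      omega
    exact_mod_cast h1
  have hJJ : (J : ℝ) ≤ J0 := by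
    rw [hJ, hJ0]
    push_cast
    have h1 : ((T / h : ℕ) : ℝ) ≤ (T : ℝ) / h := Nat.cast_div_le
    have hhr : (0 : ℝ) < h := by exact_mod_cast hh0
    have h2 : (T : ℝ) / h ≤ 2 / τ := by
      rw [div_le_div_iff₀ hhr hτ0]
      linarith
    linarith
  have hfin := final (MT := κ * B * T) (Bt := B) (T := T) (H := H) (hh := h)
    (mm' := mm H δ) (J := J) (J0 := J0) (q := q) (K := K) (ε := ε) (ε1 := ε1) (δ := δ)
    (CU := C0) (by linarith) hT0.le hH0 hJJ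
    hJ00 hq0 hε hε1 hJh hmm3 (Nat.cast_nonneg _)
    hHBr hC0 (by linarith) hδ0 hδ2
  calc _ ≤ ∑ i ∈ range J, |∑ u ∈ Ioc (U i) (U (i + 1)), ∑ v ∈ Icc 1 (K * B),
      F ((v : ℤ) - G.eval (u : ℤ)) * E (u * v)| := Finset.abs_sum_le_sum_abs _ _
    _ ≤ ∑ i ∈ range J, (κ * B * ((U (i + 1) : ℝ) - U i) +
        (3 * (q : ℝ) ^ 2 * ε1 * ((B : ℝ) * T) +
        h * (2 * C0 * (K * B / H + 4) * mm H δ))) :=
        Finset.sum_le_sum hblock
    _ = κ * B * T + J * (3 * (q : ℝ) ^ 2 * ε1 * ((B : ℝ) * T) +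
        h * (2 * C0 * (K * B / H + 4) * mm H δ)) := by
        rw [Finset.sum_add_distrib, ← Finset.mul_sum, hsum, Finset.sum_const, card_range,
          nsmul_eq_mul]
    _ = κ * B * T + 3 * J * (q : ℝ) ^ 2 * ε1 * ((B : ℝ) * T) +
        J * h * (2 * C0 * (K * B / H + 4) * mm H δ) := by
        ring
    _ ≤ κ * B * T + ε * (B * T) := hfin
    _ = _ := by ring

end Pool.Agent.N8.QH
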